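import Mathlib

/-!
# The gcd recursion: systems with an integer zero at least two

If one of the polynomials `Q j` vanishes at an integer `c ≥ 2`, then `P = ∏ j, Q j` vanishes at `c`, the
recursion gives `S c = |S (c - 1) - gcd (S (c - 1), 0)| = 0` for EVERY start `s`, and `Q j (c + 1) = ± 1` is
not a prime. So no `s` is good for `P`. The polynomial `X - c` is such a system with `m = 1`, and it takes
prime values at infinitely many positive integers.
-/

set_option autoImplicit false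

namespace Pool.Agent.Results.MP_e68b86_nt.IntegerZero

open Polynomial

/-- The sequence `S = S_s`: `S 1 = s` and `S n = |S (n - 1) - gcd (S (n - 1), P n)|` for `n ≥ 2` (the value
at the index `0` is not used). `Int.gcd` is the non-negative greatest common divisor, `gcd (a, 0) = |a|`. -/
def S (P : ℤ[X]) (s : ℤ) : ℕ → ℤ
  | 0 => s
  | 1 => s
  | (n + 2) => |S P s (n + 1) - (Int.gcd (S P s (n + 1)) (P.eval ((n : ℤ) + 2)) : ℤ)|

/-- the integer `a` is a positive rational prime -/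
def IsPrime (a : ℤ) : Prop := 0 < a ∧ Prime a

/-- The hypothesis on `Q 1, ..., Q m`: `m ≥ 1`, all of them are irreducible over `ℤ` and non-constant, and
they are simultaneously prime at infinitely many positive integers. -/
def Admissible {m : ℕ} (Q : Fin m → ℤ[X]) : Prop :=
  1 ≤ m ∧ (∀ j, Irreducible (Q j) ∧ 0 < (Q j).natDegree) ∧
    {k : ℕ | 0 < k ∧ ∀ j, IsPrime ((Q j).eval (k : ℤ))}.Infinite

/-- `s` is good for `P = ∏ j, Q j`. -/
def Good {m : ℕ} (Q : Fin m → ℤ[X]) (s : ℤ) : Prop :=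
  {n : ℕ | 1 ≤ n ∧ S (∏ j, Q j) s n = 0}.Infinite ∧
    ∀ n : ℕ, 2 ≤ n → S (∏ j, Q j) s n = 0 → ∀ j, IsPrime ((Q j).eval ((n : ℤ) + 1))

/-- all members are non-negative -/
lemma S_nonneg (P : ℤ[X]) (s : ℤ) (hs : 0 < s) : ∀ n, 0 ≤ S P s n
  | 0 => by simpa [S] using hs.le
  | 1 => by simpa [S] using hs.le
  | (n + 2) => by simp only [S]; exact abs_nonneg _

/-- an irreducible polynomial with an integer zero `c` has the value `± 1` at `c + 1` -/
lemma eval_succ (Q : ℤ[X]) (hQ : Irreducible Q) (c : ℤ) (hc : Q.eval c = 0) :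
    Q.eval (c + 1) = 1 ∨ Q.eval (c + 1) = -1 := by
  obtain ⟨R, hR⟩ := dvd_iff_isRoot.2 (show Q.IsRoot c from hc)
  have h1 : ¬ IsUnit (X - C c : ℤ[X]) := not_isUnit_X_sub_C c
  have h2 : IsUnit R := (hQ.isUnit_or_isUnit hR).resolve_left h1
  obtain ⟨r, hr, rfl⟩ := Polynomial.isUnit_iff.1 h2
  rw [hR]
  rcases Int.isUnit_iff.1 hr with h | h <;> simp [h]

/-- (1) No start is good for a system of which one polynomial has an integer zero `c ≥ 2`.
(2) For every integer `c ≥ 2` the one polynomial `X - c` is such a system: it is irreducible and it takes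
prime values at infinitely many positive integers.
In particular Q1 is false: only finitely many `s` (none) are good for `P = X - 2`. -/
theorem result :
    (∀ (m : ℕ) (Q : Fin m → ℤ[X]), Admissible Q → (∃ c : ℤ, 2 ≤ c ∧ ∃ j, (Q j).eval c = 0) →
      ∀ s : ℤ, 0 < s → ¬ Good Q s) ∧
    (∀ c : ℤ, 2 ≤ c → Admissible (fun _ : Fin 1 => (X - C c : ℤ[X]))) ∧
    ∃ (m : ℕ) (Q : Fin m → ℤ[X]), Admissible Q ∧ {s : ℤ | 0 < s ∧ Good Q s}.Finite := by
  have h1 : ∀ (m : ℕ) (Q : Fin m → ℤ[X]), Admissible Q → (∃ c : ℤ, 2 ≤ c ∧ ∃ j, (Q j).eval c = 0) →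
      ∀ s : ℤ, 0 < s → ¬ Good Q s := by
    rintro m Q ⟨-, hQ, -⟩ ⟨c, hc, j, hj⟩ s hs ⟨-, hg⟩
    obtain ⟨n, hn⟩ : ∃ n : ℕ, c = (n : ℤ) + 2 := ⟨(c - 2).toNat, by omega⟩
    have hP : (∏ j, Q j).eval ((n : ℤ) + 2) = 0 := by
      rw [← hn, eval_prod]
      exact Finset.prod_eq_zero (Finset.mem_univ j) hj
    have hS : S (∏ j, Q j) s (n + 2) = 0 := by
      simp only [S]
      rw [hP, Int.gcd_zero_right, Int.natCast_natAbs, abs_of_nonneg (S_nonneg _ s hs _)]
      simp
    have h2 := hg (n + 2) (by omega) hS j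
    have h3 : ((n + 2 : ℕ) : ℤ) + 1 = c + 1 := by rw [hn]; push_cast; ring
    rw [h3] at h2
    rcases eval_succ (Q j) (hQ j).1 c hj with h | h
    · rw [h] at h2
      exact h2.2.not_isUnit isUnit_one
    · rw [h] at h2
      exact absurd h2.1 (by norm_num)
  have h2 : ∀ c : ℤ, 2 ≤ c → Admissible (fun _ : Fin 1 => (X - C c : ℤ[X])) := by
    intro c hc
    refine ⟨le_rfl, fun _ => ⟨irreducible_X_sub_C c, by rw [natDegree_X_sub_C]; exact one_pos⟩, ?_⟩
    have h3 : ((fun p : ℕ => p + c.toNat) '' {p : ℕ | p.Prime}).Infinite :=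
      Nat.infinite_setOfPred_prime.image (fun a _ b _ h => Nat.add_right_cancel h)
    refine h3.mono ?_
    rintro _ ⟨p, hp, rfl⟩
    have hp' : p.Prime := hp
    refine ⟨by have := hp'.pos; simp only; omega, fun _ => ?_⟩
    have h4 : (((p + c.toNat : ℕ) : ℤ)) - c = p := by
      push_cast
      rw [Int.toNat_of_nonneg (by omega)]
      ring
    simp only [eval_sub, eval_X, eval_C]
    rw [h4]
    exact ⟨by exact_mod_cast hp'.pos, Nat.prime_iff_prime_int.1 hp'⟩
  refine ⟨h1, h2, 1, _, h2 2 le_rfl, ?_⟩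
  convert Set.finite_empty
  ext s
  simp only [Set.mem_ofPred_eq, Set.mem_empty_iff_false, iff_false, not_and]
  intro hs
  exact h1 1 _ (h2 2 le_rfl) ⟨2, le_rfl, 0, by simp⟩ s hs

end Pool.Agent.Results.MP_e68b86_nt.IntegerZero
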